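import Pool.Agent.Helper65.KH.Goals

/-!
# Project KH, packet GR: faces of general position
-/

set_option autoImplicit false

namespace Pool.Agent.Helper32.KH.GR

open Pool.Agent.Helper65.KH

/-- extension by zero -/
def ext {ι : Type} [DecidableEq ι] {R : Type} [Zero R] (I : Finset ι) (u : I → R) : ι → R :=
  fun i => if h : i ∈ I then u ⟨i, h⟩ else 0

lemma ext_mem {ι : Type} [DecidableEq ι] {R : Type} [Zero R] (I : Finset ι) (u : I → R) (i : I) :
    ext I u i = u i := by
  simp [ext]

lemma ext_nmem {ι : Type} [DecidableEq ι] {R : Type} [Zero R] (I : Finset ι) (u : I → R) {i : ι} (h : i ∉ I) :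
    ext I u i = 0 := by
  simp [ext, h]

lemma ext_inj {ι : Type} [DecidableEq ι] {R : Type} [Zero R] (I : Finset ι) :
    Function.Injective (ext I : (I → R) → (ι → R)) := by
  intro u v h
  funext i
  have := congrFun h i
  rwa [ext_mem, ext_mem] at this

lemma mem_res {ι : Type} [Fintype ι] [DecidableEq ι] (V : Finset (ι → ℕ)) (I : Finset ι) (u : I → ℕ) :
    u ∈ res V I ↔ ext I u ∈ V := by
  unfold res
  rw [Finset.mem_image]
  constructor
  · rintro ⟨v, hv, rfl⟩
    rw [Finset.mem_filter] at hv
    have : ext I (fun i : I => v i) = v := by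
      funext j
      by_cases hj : j ∈ I
      · simp [ext, hj]
      · rw [ext_nmem I _ hj, hv.2 j hj]
    rw [this]
    exact hv.1
  · intro h
    refine ⟨ext I u, ?_, ?_⟩
    · rw [Finset.mem_filter]
      exact ⟨h, fun j hj => ext_nmem I u hj⟩
    · funext i
      exact ext_mem I u i

/-- extension by zero as a linear map -/
noncomputable def extL {ι : Type} [DecidableEq ι] (I : Finset ι) : (I → ℝ) →ₗ[ℝ] (ι → ℝ) where
  toFun := ext I
  map_add' u v := by
    funext j
    by_cases hj : j ∈ I <;> simp [ext, hj]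
  map_smul' c u := by
    funext j
    by_cases hj : j ∈ I <;> simp [ext, hj]

lemma dt_ext {ι : Type} [Fintype ι] [DecidableEq ι] (I : Finset ι) (w : I → ℝ) (x : ι → ℝ) :
    dt (ext I w) x = dt w (fun i : I => x i) := by
  unfold dt
  rw [← Finset.sum_subset (Finset.subset_univ I)]
  · rw [← Finset.sum_coe_sort I]
    refine Finset.sum_congr rfl fun i _ => ?_
    rw [ext_mem]
  · intro i _ hi
    rw [ext_nmem I w hi, zero_mul]

theorem t : S_GR := by
  intro ι _ _ V I
  refine ⟨fun h w U hU hw => ?_, fun h => ⟨fun h0 => ?_, fun i => ?_⟩⟩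
  · have h1 := h (ext I w) (U.image (ext I)) (by
      intro v hv
      obtain ⟨u, hu, rfl⟩ := Finset.mem_image.mp hv
      exact (mem_res V I u).mp (hU hu)) (by
      intro v hv
      obtain ⟨u, hu, rfl⟩ := Finset.mem_image.mp hv
      rw [dt_ext, ← hw u hu]
      congr 1
      funext i
      simp only [cv, ext_mem])
    have h2 : LinearIndependent ℝ (fun u : U => extL I (cv (u : I → ℕ))) := by
      have h3 := h1.comp (fun u : U => (⟨ext I (u : I → ℕ), Finset.mem_image_of_mem _ u.2⟩ : (U.image (ext I) : Finset (ι → ℕ)))) (by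
        intro u v huv
        have := congrArg (fun z : (U.image (ext I) : Finset (ι → ℕ)) => (z : ι → ℕ)) huv
        exact Subtype.ext (ext_inj I this))
      have h4 : (fun u : U => extL I (cv (u : I → ℕ))) = (fun v : (U.image (ext I) : Finset (ι → ℕ)) => cv (v : ι → ℕ)) ∘
          (fun u : U => (⟨ext I (u : I → ℕ), Finset.mem_image_of_mem _ u.2⟩ : (U.image (ext I) : Finset (ι → ℕ)))) := by
        funext u j
        by_cases hj : j ∈ I
        · simp [extL, ext, cv, hj]
        · simp [extL, ext, cv, hj]
      rw [h4]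
      exact h3
    exact LinearIndependent.of_comp (extL I) h2
  · refine h.1 ?_
    have := (mem_res V I 0).mp h0
    have h2 : ext I (0 : I → ℕ) = 0 := by
      funext j
      by_cases hj : j ∈ I <;> simp [ext, hj]
    rwa [h2] at this
  · obtain ⟨m, hm, hV⟩ := h.2 (i : ι)
    refine ⟨m, hm, (mem_res V I _).mpr ?_⟩
    have h2 : ext I (Pi.single i m : I → ℕ) = Pi.single (i : ι) m := by
      funext j
      by_cases hj : j ∈ I
      · by_cases hji : j = i
        · subst hji
          simp [ext]
        · have : (⟨j, hj⟩ : I) ≠ i := fun h => hji (congrArg Subtype.val h)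
          simp [ext, hj, Pi.single_eq_of_ne hji, Pi.single_eq_of_ne this]
      · have hji : j ≠ i := fun h => hj (h ▸ i.2)
        simp [ext, hj, Pi.single_eq_of_ne hji]
    rwa [h2]

end Pool.Agent.Helper32.KH.GR
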